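import Pool.Agent.Y223.G.Stm12
import Pool.Agent.Y815.G.Gla
import Pool.Agent.Y779.H.Glae

/-!
Job W6-GLW: gluing of the charts, general weighted blowups at the wild primes.
-/

set_option autoImplicit false

namespace Pool.Agent.Y769.H

open Pool.Agent.Y223.G Pool.Agent.Y971.G

section

variable {k K : Type} [CommRing k] [Field K] [Algebra k K]

lemma mem_RX {B N : Type} [CommRing B] [Algebra B K] {C : Subalgebra B K}
    {R : N → Subalgebra k (LP K)} {f : LP K} :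
    f ∈ RX k C R ↔ f ∈ RR k 1 1 ⊤ 0 C ∧ ∀ i, f ∈ R i := by
  unfold RX
  rw [Algebra.mem_inf, Algebra.mem_iInf]

lemma RX_gr {B N : Type} [CommRing B] [Algebra B K] {C : Subalgebra B K}
    {R : N → Subalgebra k (LP K)} (hR : ∀ i, Gr (R i)) : Gr (RX k C R) := by
  intro f hf d
  rw [mem_RX] at hf ⊢
  exact ⟨RR_gr f hf.1 d, fun i => hR i f (hf.2 i) d⟩

lemma RX_c {B N : Type} [CommRing B] [Algebra B K] {C : Subalgebra B K}
    {R : N → Subalgebra k (LP K)} {ν : K} (hν : ν ∈ C) (hR : ∀ i, hm 0 ν ∈ R i) :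
    hm 0 ν ∈ RX k C R := mem_RX.2 ⟨RR_c one_pos hν, hR⟩

/-- combination of the factors -/
lemma combX {B N : Type} [CommRing B] [Algebra B K] [Finite N] {C : Subalgebra B K}
    {R : N → Subalgebra k (LP K)} {ν : K} (hν : ν ∈ C) (hR : ∀ i, hm 0 ν ∈ R i) {f : LP K}
    (h0 : ∃ n : ℕ, hm 0 ν ^ n * f ∈ RR k 1 1 ⊤ 0 C)
    (h1 : ∀ i, ∃ n : ℕ, hm 0 ν ^ n * f ∈ R i) :
    ∃ n : ℕ, hm 0 ν ^ n * f ∈ RX k C R := by
  classical
  have : Fintype N := Fintype.ofFinite N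
  obtain ⟨n0, hn0⟩ := h0
  choose n hn using h1
  have key : ∀ (R : Subalgebra k (LP K)), hm 0 ν ∈ R → ∀ a b : ℕ, a ≤ b →
      hm 0 ν ^ a * f ∈ R → hm 0 ν ^ b * f ∈ R := by
    intro R hR a b hab hf
    have e : hm 0 ν ^ b * f = hm 0 ν ^ (b - a) * (hm 0 ν ^ a * f) := by
      rw [← mul_assoc, ← pow_add, Nat.sub_add_cancel hab]
    rw [e]
    exact R.mul_mem (R.pow_mem hR _) hf
  refine ⟨n0 + ∑ i, n i, ?_⟩
  rw [mem_RX]
  refine ⟨key _ (RR_c one_pos hν) n0 _ (Nat.le_add_right _ _) hn0, fun i => ?_⟩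
  refine key _ (hR i) (n i) _ ?_ (hn i)
  exact (Finset.single_le_sum (f := n) (fun j _ => Nat.zero_le _) (Finset.mem_univ i)).trans
    (Nat.le_add_left _ _)

/-- one factor, different bases, a general target -/
lemma rr_loc3 {B B' : Type} [CommRing B] [CommRing B'] [Algebra B K] [Algebra B' K]
    {C : Subalgebra B K} {C' : Subalgebra B' K} {ν : K} {R : Subalgebra k (LP K)}
    (hR : ∀ c ∈ C, hm 0 c ∈ R) (hs : hm (-1) 1 ∈ R) (hν : hm 0 ν ∈ R) (hν1 : hm 1 ν ∈ R)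
    (hB : ∀ r : B', ∃ n : ℕ, ν ^ n * algebraMap B' K r ∈ C)
    (hle : ∀ c ∈ C', ∃ n : ℕ, ν ^ n * c ∈ C) :
    RR k 1 1 ⊤ 0 C' ≤ loc R (hm 0 ν) hν := by
  refine Algebra.adjoin_le ?_
  rintro f ((hf | ⟨e, he, rfl⟩) | ⟨a, c, hc, ha, rfl⟩)
  · rw [hf]
    exact le_loc _ _ _ hs
  · obtain ⟨n, hn⟩ := hB e
    refine ⟨n + 1, ?_⟩
    have h1 := Subalgebra.mul_mem _ (hR _ hn) hν1
    rw [hm_mul] at h1
    rw [hm_pow, hm_mul, mul_zero]
    have h2 : ν ^ (n + 1) * algebraMap B' K e = ν ^ n * algebraMap B' K e * ν := by ring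
    rw [h2]
    exact h1
  · have ha0 : a = 0 := by omega
    subst ha0
    obtain ⟨n, hn⟩ := hle c hc
    refine ⟨n, ?_⟩
    rw [wt_zero, Function.iterate_zero_apply, hm_pow, mul_zero]
    show hm 0 (ν ^ n) * hm 0 c ∈ _
    rw [hm_mul, zero_add]
    exact hR _ hn

lemma RW_gr {B Ω : Type} [CommRing B] [Algebra B K] {m : ℕ} {𝔓 : Ideal B} {e : ℕ}
    {W : Ω → Fin (m + 1) → ℕ} {z : Ω → Fin (m + 1) → K} {d : ℕ} {Φ : Ω → K} :
    Gr (RW k 𝔓 e W z d Φ) := by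
  apply gr_adjoin
  rintro f (((hf | ⟨a, -, rfl⟩) | ⟨o, rfl⟩) | ⟨ω, a, -, rfl⟩)
  · exact ⟨-1, 1, hf⟩
  · exact ⟨_, _, rfl⟩
  · exact ⟨_, _, rfl⟩
  · exact ⟨_, _, rfl⟩

/-- one weighted factor, the same base -/
lemma rw_loc {B Ω : Type} [CommRing B] [Algebra B K] [Fintype Ω] {m : ℕ} {𝔓 : Ideal B} {e : ℕ}
    {W : Ω → Fin (m + 1) → ℕ} {z : Ω → Fin (m + 1) → K} {d : ℕ} {Φ Ψ : Ω → K}
    (hΦ : ∀ ω, Φ ω ≠ 0) (hΨ : ∀ ω, Ψ ω ≠ 0) {ν : K} (hν : ν = ∏ ω, Ψ ω / Φ ω)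
    (h0 : hm 0 ν ∈ RW k 𝔓 e W z d Φ)
    (hfac : ∀ S : Finset Ω, hm 0 (∏ ω ∈ S, Ψ ω / Φ ω) ∈ RW k 𝔓 e W z d Φ) :
    RW k 𝔓 e W z d Ψ ≤ loc (RW k 𝔓 e W z d Φ) (hm 0 ν) h0 := by
  classical
  have hsub : ∀ f ∈ ({hm (-1) 1} ∪ {f | ∃ a ∈ 𝔓, f = hm e (algebraMap B K a)} ∪
      {f | ∃ o : B, f = hm 0 (algebraMap B K o)} : Set (LP K)), f ∈ RW k 𝔓 e W z d Φ :=
    fun f hf => Algebra.subset_adjoin (Or.inl hf)
  refine Algebra.adjoin_le ?_
  rintro f (hf | ⟨ω, a, ha, rfl⟩)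
  · exact le_loc _ _ _ (hsub f hf)
  · refine ⟨1, ?_⟩
    have h1 : hm ((∑ j, W ω j * a j : ℕ) : ℤ) ((∏ j, z ω j ^ a j) / Φ ω) ∈
        RW k 𝔓 e W z d Φ := Algebra.subset_adjoin (Or.inr ⟨ω, a, ha, rfl⟩)
    have h2 := Subalgebra.mul_mem _ (hfac (Finset.univ.erase ω)) h1
    rw [hm_mul, zero_add] at h2
    rw [pow_one, hm_mul, zero_add]
    have e : ν * ((∏ j, z ω j ^ a j) / Ψ ω) =
        (∏ ω' ∈ Finset.univ.erase ω, Ψ ω' / Φ ω') * ((∏ j, z ω j ^ a j) / Φ ω) := by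
      rw [hν, ← Finset.mul_prod_erase Finset.univ _ (Finset.mem_univ ω)]
      have h1 := hΦ ω
      have h2 := hΨ ω
      field_simp
    rw [e]
    exact h2

end

section

variable {k O K : Type} [CommRing k] [CommRing O] [Field K] [Algebra k O]
  [Algebra O K] [Algebra k K] [IsScalarTower k O K] {m : ℕ}

/-- the quotient of two forms with coefficients in `O` is in the chart -/
lemma divL (s : k) (z : Fin (m + 1) → K) (d : ℕ) (F : K) {G : K} (hG : G ∈ FS O z d) :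
    G / F ∈ AF (OL O (K := K) s) z d F := by
  unfold FS at hG
  induction hG using Submodule.span_induction with
  | mem x hx => exact Algebra.subset_adjoin ⟨_, hx, rfl⟩
  | zero =>
    rw [zero_div]
    exact Subalgebra.zero_mem _
  | add x y _ _ hx hy =>
    rw [add_div]
    exact Subalgebra.add_mem _ hx hy
  | smul r x _ hx =>
    rw [Algebra.smul_def, mul_div_assoc]
    refine Subalgebra.mul_mem _ ?_ hx
    exact Subalgebra.algebraMap_mem _
      (⟨algebraMap O K r, ⟨0, r, by rw [pow_zero, one_mul]⟩⟩ : OL O (K := K) s)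

end

theorem t_GLW : S_R2M → S_RWB → S_GLW := by
  classical
  intro r2 rwb k O K K₂ G Ω _ _ _ _ _ _ _ _ _ _ _ _ ε hε ρ m z s hs N _ 𝔔 e W he π hπ d Φ hΦ
  have hB := fun i => rwb k (OL O (K := K) s) K Ω (𝔔 i) (e i) (he i) m (W i) z d Φ
  set C : Subalgebra (OL O (K := K) s) K := CG (OL O (K := K) s) z d Φ with hC
  have hR := r2 k K K₂ ε hε (RX k C (fun i => RW k (𝔔 i) (e i) (W i) z d Φ))
    (RX_gr fun i => (hB i).2.2.1) π hπ
  have hleC : ∀ ω, AF (OL O (K := K) s) (z ω) d (Φ ω) ≤ C := fun ω =>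
    le_iSup (fun ω => AF (OL O (K := K) s) (z ω) d (Φ ω)) ω
  refine ⟨fun Ψ hΨ x hx => ?_, fun s' hs' N' _ 𝔔' e' W' π' hπ' h𝔔 hn₀ => ?_⟩
  · obtain ⟨_, rfl⟩ := hx
    have hB' := fun i => rwb k (OL O (K := K) s) K Ω (𝔔 i) (e i) (he i) m (W i) z d Ψ
    have hR' := r2 k K K₂ ε hε
      (RX k (CG (OL O (K := K) s) z d Ψ) (fun i => RW k (𝔔 i) (e i) (W i) z d Ψ))
      (RX_gr fun i => (hB' i).2.2.1) π hπ
    set ν : K := ∏ ω, Ψ ω / Φ ω with hν
    have hfac : ∀ ω, Ψ ω / Φ ω ∈ C := fun ω => hleC ω (divL s (z ω) d (Φ ω) (hΨ.mem ω))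
    have hνC : ν ∈ C := Subalgebra.prod_mem _ fun ω _ => hfac ω
    have hle : ∀ c ∈ CG (OL O (K := K) s) z d Ψ, ∃ n : ℕ, ν ^ n * c ∈ C := by
      have h1 : CG (OL O (K := K) s) z d Ψ ≤ TT C ν hνC
          (fun r => ⟨0, by rw [pow_zero, one_mul]; exact Subalgebra.algebraMap_mem _ r⟩) := by
        refine iSup_le fun ω => Algebra.adjoin_le ?_
        rintro _ ⟨x, hx, rfl⟩
        refine ⟨1, ?_⟩
        have e : ν ^ 1 * (x / Ψ ω) = (∏ ω' ∈ Finset.univ.erase ω, Ψ ω' / Φ ω') * (x / Φ ω) := by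
          rw [pow_one, hν, ← Finset.mul_prod_erase Finset.univ _ (Finset.mem_univ ω)]
          have h1 := hΦ.ne ω
          have h2 := hΨ.ne ω
          field_simp
        rw [e]
        refine Subalgebra.mul_mem _ (Subalgebra.prod_mem _ fun j _ => hfac j) ?_
        exact hleC ω (Algebra.subset_adjoin ⟨x, hx, rfl⟩)
      exact h1
    have hνR : ∀ i, hm 0 ν ∈ RW k (𝔔 i) (e i) (W i) z d Φ := fun i => (hB i).1 ν hνC
    refine Pool.Agent.Y779.H.glue hR.2 hR'.1 hR'.2 (RX_c hνC hνR) fun d' b a ha => ?_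
    have ha' := mem_RX.1 ha
    obtain ⟨n, hn⟩ := combX (N := N) hνC hνR
      (Pool.Agent.Y815.G6.rr_loc one_pos hνC rfl hle ha'.1)
      (fun i => rw_loc hΦ.ne hΨ.ne hν (hνR i)
        (fun S => (hB i).1 _ (Subalgebra.prod_mem _ fun ω _ => hfac ω)) (ha'.2 i))
    refine ⟨n, ?_⟩
    rw [hm_pow, hm_mul, mul_zero, zero_add] at hn
    rw [mul_assoc]
    exact hn
  · have hR' := r2 k K K₂ ε hε
      (RX k (CG (OL O (K := K) s') z d Φ) (fun i => RW k (𝔔' i) (e' i) (W' i) z d Φ))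
      (RX_gr fun i => RW_gr) π' hπ'
    set ν : K := algebraMap k K s' / algebraMap k K s with hν
    have hinv : (algebraMap k K s)⁻¹ ∈ OL O (K := K) s := by
      refine ⟨1, 1, ?_⟩
      rw [pow_one, mul_inv_cancel₀ hs, map_one]
    have hνO : ν ∈ OL O (K := K) s := by
      rw [hν, div_eq_mul_inv]
      exact Subalgebra.mul_mem _ (Subalgebra.algebraMap_mem _ s') hinv
    have hOLC : ∀ x : K, x ∈ OL O (K := K) s → x ∈ C := fun x hx =>
      Subalgebra.algebraMap_mem C (⟨x, hx⟩ : OL O (K := K) s)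
    have hνC : ν ∈ C := hOLC ν hνO
    have h3 : ∀ (u : OL O (K := K) s), algebraMap (OL O (K := K) s) K
        ((⟨(algebraMap k K s)⁻¹, hinv⟩ : OL O (K := K) s) *
          algebraMap k (OL O (K := K) s) s') = ν := by
      intro u
      rw [map_mul, hν, div_eq_inv_mul]
      rfl
    have hνR0 : hm 1 ν ∈ RR k 1 1 ⊤ 0 C := by
      have h2 := RR_e (k := k) (τ := (1 : K ≃ₐ[k] K)) (p := 1) (𝔓 := (⊤ : Ideal (OL O (K := K) s)))
        (l := 0) (C := C) (e := (⟨(algebraMap k K s)⁻¹, hinv⟩ : OL O (K := K) s) *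
          algebraMap k (OL O (K := K) s) s') Submodule.mem_top
      rw [h3 1] at h2
      exact h2
    have hνR1 : ∀ i, hm 1 ν ∈ RW k (𝔔 i) (e i) (W i) z d Φ := by
      intro i
      have h1 : (⟨(algebraMap k K s)⁻¹, hinv⟩ : OL O (K := K) s) *
          algebraMap k (OL O (K := K) s) s' ∈ 𝔔 i := Ideal.mul_mem_left _ _ (h𝔔 i)
      have h2 := (hB i).2.2.2.2.1 _ h1
      rw [h3 1] at h2
      exact h2
    have hOL : ∀ r : OL O (K := K) s', ∃ n : ℕ, ν ^ n * algebraMap (OL O (K := K) s') K r ∈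
        OL O (K := K) s := by
      rintro ⟨x, n, y, hy⟩
      refine ⟨n, n, y, ?_⟩
      rw [← hy, hν, div_pow]
      show algebraMap k K s ^ n * (algebraMap k K s' ^ n / algebraMap k K s ^ n * x) = _
      field_simp
    have hBC : ∀ r : OL O (K := K) s', ∃ n : ℕ,
        ν ^ n * algebraMap (OL O (K := K) s') K r ∈ C := fun r => by
      obtain ⟨n, hn⟩ := hOL r
      exact ⟨n, hOLC _ hn⟩
    have hle : ∀ c ∈ CG (OL O (K := K) s') z d Φ, ∃ n : ℕ, ν ^ n * c ∈ C := by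
      have h1 : CG (OL O (K := K) s') z d Φ ≤ TT C ν hνC hBC := by
        refine iSup_le fun ω => Algebra.adjoin_le ?_
        rintro _ ⟨x, hx, rfl⟩
        refine ⟨0, ?_⟩
        rw [pow_zero, one_mul]
        exact hleC ω (Algebra.subset_adjoin ⟨x, hx, rfl⟩)
      exact h1
    have hνR : ∀ i, hm 0 ν ∈ RW k (𝔔 i) (e i) (W i) z d Φ := fun i => (hB i).1 ν hνC
    refine Pool.Agent.Y779.H.glue hR.2 hR'.1 hR'.2 (RX_c hνC hνR) fun d' b a ha => ?_
    have ha' := mem_RX.1 ha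
    obtain ⟨n, hn⟩ := combX (N := N) hνC hνR
      (Pool.Agent.Y815.G6.rr_loc2 one_pos hνC hνR0 hBC hle ha'.1)
      (fun i => rr_loc3 (hB i).1 (hB i).2.2.2.1 (hνR i) (hνR1 i) hBC hle ha'.1)
    obtain ⟨n₀, h1, h2⟩ := hn₀
    rw [hm_pow, hm_mul, mul_zero, zero_add] at hn
    have hνm : ∀ y : K, algebraMap k K s' ^ n₀ * y ∈ OL O (K := K) s →
        ν ^ n₀ * y ∈ OL O (K := K) s := by
      intro y hy
      have e : ν ^ n₀ * y = (algebraMap k K s)⁻¹ ^ n₀ * (algebraMap k K s' ^ n₀ * y) := by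
        rw [hν, div_pow, inv_pow]
        field_simp
      rw [e]
      exact Subalgebra.mul_mem _ (Subalgebra.pow_mem _ hinv _) hy
    -- the power of the quotient of the uniformizers
    have hq : ν ^ (n₀ * b.natAbs) * (π' / π) ^ b ∈ OL O (K := K) s := by
      rcases Int.natAbs_eq b with hb | hb
      · have e : ν ^ (n₀ * b.natAbs) * (π' / π) ^ b = (ν ^ n₀ * (π' / π)) ^ b.natAbs := by
          conv_lhs => rw [hb]
          rw [mul_pow, zpow_natCast, pow_mul, Int.natAbs_natCast]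
        rw [e]
        exact Subalgebra.pow_mem _ (hνm _ h1) _
      · have e : ν ^ (n₀ * b.natAbs) * (π' / π) ^ b = (ν ^ n₀ * (π / π')) ^ b.natAbs := by
          conv_lhs => rw [hb]
          rw [mul_pow, zpow_neg, zpow_natCast, pow_mul, Int.natAbs_neg, Int.natAbs_natCast,
            ← inv_pow, inv_div]
        rw [e]
        exact Subalgebra.pow_mem _ (hνm _ h2) _
    have hqC : hm 0 (ν ^ (n₀ * b.natAbs) * (π' / π) ^ b) ∈
        RX k C (fun i => RW k (𝔔 i) (e i) (W i) z d Φ) :=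
      RX_c (hOLC _ hq) fun i => (hB i).1 _ (hOLC _ hq)
    refine ⟨n₀ * b.natAbs + n, ?_⟩
    have h4 := Subalgebra.mul_mem _ hqC hn
    rw [hm_mul, zero_add] at h4
    have e : ν ^ (n₀ * b.natAbs) * (π' / π) ^ b * (ν ^ n * (a * π' ^ (-b))) =
        ν ^ (n₀ * b.natAbs + n) * a * π ^ (-b) := by
      have e1 : (π' / π) ^ b * π' ^ (-b) = π ^ (-b) := by
        rw [div_zpow, zpow_neg, zpow_neg]
        have := zpow_ne_zero b hπ'
        have := zpow_ne_zero b hπ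
        field_simp
      rw [← e1, pow_add]
      ring
    rwa [e] at h4

end Pool.Agent.Y769.H
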